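import Pool.Agent.K7.H29.PP.Defs

set_option autoImplicit false

/-! # Universal profinite groups: free profinite groups and free profinite products -/

namespace Pool.Agent.K7.H29.PP

open Topology Set

universe u

/-- permutations of `Fin n` with the discrete topology -/
def PF (n : ℕ) : Type := Equiv.Perm (Fin n)

instance (n : ℕ) : Group (PF n) := inferInstanceAs (Group (Equiv.Perm (Fin n)))
instance (n : ℕ) : Finite (PF n) := inferInstanceAs (Finite (Equiv.Perm (Fin n)))
instance (n : ℕ) : TopologicalSpace (PF n) := ⊥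
instance (n : ℕ) : DiscreteTopology (PF n) := ⟨rfl⟩

section
variable {X : Type u} (F : ∀ n, Set (X → PF n))

/-- the test maps -/
abbrev Idx : Type u := Σ n : ℕ, {f : X → PF n // f ∈ F n}

/-- the big product -/
abbrev Big : Type u := ∀ j : Idx F, PF j.1

/-- the generators -/
def gen (x : X) : Big F := fun j => j.2.1 x

/-- the universal group -/
def UG : Subgroup (Big F) := (Subgroup.closure (range (gen F))).topologicalClosure

instance : CompactSpace (UG F) :=
  isCompact_iff_compactSpace.1 (Subgroup.isClosed_topologicalClosure _).isCompact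

instance : ProfiniteGroup (UG F) := {}

/-- the generators as elements of the universal group -/
def ugen (x : X) : UG F :=
  ⟨gen F x, Subgroup.le_topologicalClosure _ (Subgroup.subset_closure ⟨x, rfl⟩)⟩

theorem eq_top {C : Subgroup (UG F)} (hC : IsClosed (C : Set (UG F)))
    (h : ∀ x, ugen F x ∈ C) : C = ⊤ := by
  have h1 : IsClosed ((C.map (UG F).subtype : Subgroup (Big F)) : Set (Big F)) := by
    rw [Subgroup.coe_map]
    exact (Subgroup.isClosed_topologicalClosure _).isClosedEmbedding_subtypeVal.isClosedMap _ hC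
  have h2 : UG F ≤ C.map (UG F).subtype := by
    apply Subgroup.topologicalClosure_minimal _ _ h1
    rw [Subgroup.closure_le]
    rintro _ ⟨x, rfl⟩
    exact ⟨ugen F x, h x, rfl⟩
  rw [eq_top_iff]
  intro y _
  obtain ⟨z, hz, hzy⟩ := h2 y.2
  exact (Subtype.ext hzy : z = y) ▸ hz

end

/-- a profinite group is separated by homomorphisms to the groups `PF n` -/
theorem exists_perm {P : Type u} [Group P] [TopologicalSpace P] [ProfiniteGroup P] {x : P}
    (hx : x ≠ 1) : ∃ (n : ℕ) (ψ : P →* PF n), Continuous ψ ∧ ψ x ≠ 1 := by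
  obtain ⟨U, hU⟩ := ProfiniteGrp.exist_openNormalSubgroup_sub_open_nhds_of_one
    (isOpen_compl_singleton : IsOpen ({x}ᶜ : Set P)) (by simpa using hx.symm)
  have hxU : x ∉ (U : Subgroup P) := fun hh => hU hh rfl
  haveI : (U : Subgroup P).Normal := U.isNormal'
  haveI : Finite (P ⧸ (U : Subgroup P)) :=
    Subgroup.quotient_finite_of_isOpen (U : Subgroup P) U.isOpen'
  obtain ⟨n, ⟨e⟩⟩ := Finite.exists_equiv_fin (P ⧸ (U : Subgroup P))
  let c : (P ⧸ (U : Subgroup P)) →* Equiv.Perm (P ⧸ (U : Subgroup P)) :=
    MulAction.toPermHom _ _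
  let ψ : P →* PF n :=
    ((e.permCongrHom : Equiv.Perm (P ⧸ (U : Subgroup P)) ≃* Equiv.Perm (Fin n)).toMonoidHom.comp
      c).comp (QuotientGroup.mk' (U : Subgroup P))
  have hker : ∀ y, ψ y = 1 ↔ y ∈ (U : Subgroup P) := by
    intro y
    have hc : Function.Injective c := MulAction.toPerm_injective
    have h1 : ψ y = 1 ↔ (QuotientGroup.mk' (U : Subgroup P)) y = 1 := by
      constructor
      · intro h
        have h2 : e.permCongrHom (c (QuotientGroup.mk' (U : Subgroup P) y)) = 1 := h
        rw [map_eq_one_iff _ e.permCongrHom.injective, map_eq_one_iff _ hc] at h2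
        exact h2
      · intro h
        change e.permCongrHom (c (QuotientGroup.mk' (U : Subgroup P) y)) = 1
        rw [h, map_one, map_one]
    rw [h1]
    exact QuotientGroup.eq_one_iff y
  refine ⟨n, ψ, ?_, fun h => hxU ((hker x).1 h)⟩
  apply continuous_of_continuousAt_one
  rw [ContinuousAt, map_one, show 𝓝 (1 : PF n) = pure 1 from congrFun (nhds_discrete _) 1,
    Filter.tendsto_pure]
  filter_upwards [U.isOpen'.mem_nhds U.one_mem'] with y hy
  exact (hker y).2 hy

section
variable {X : Type u} (F : ∀ n, Set (X → PF n))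

theorem univ_ext {P : Type u} [Group P] [TopologicalSpace P] [T2Space P] {Φ Ψ : UG F →* P}
    (h1 : Continuous Φ) (h2 : Continuous Ψ) (h : ∀ x, Φ (ugen F x) = Ψ (ugen F x)) : Φ = Ψ := by
  have h3 : Φ.eqLocus Ψ = ⊤ := by
    apply eq_top F
    · exact isClosed_eq h1 h2
    · exact h
  ext y
  have : y ∈ Φ.eqLocus Ψ := by rw [h3]; trivial
  exact this

theorem univ_exists {P : Type u} [Group P] [TopologicalSpace P] [ProfiniteGroup P] (v : X → P)
    (hv : ∀ (n : ℕ) (ψ : P →* PF n), Continuous ψ → (fun x => ψ (v x)) ∈ F n) :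
    ∃ Φ : UG F →* P, Continuous Φ ∧ ∀ x, Φ (ugen F x) = v x := by
  let D : Subgroup (UG F × P) :=
    (Subgroup.closure (range fun x => (ugen F x, v x))).topologicalClosure
  have hDc : IsClosed (D : Set (UG F × P)) := Subgroup.isClosed_topologicalClosure _
  have hgen : ∀ x, (ugen F x, v x) ∈ D := fun x =>
    Subgroup.le_topologicalClosure _ (Subgroup.subset_closure ⟨x, rfl⟩)
  haveI : CompactSpace D := isCompact_iff_compactSpace.1 hDc.isCompact
  let q : D →* UG F := (MonoidHom.fst _ _).comp D.subtype
  have hq : Continuous q := continuous_fst.comp continuous_subtype_val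
  have hsurj : Function.Surjective q := by
    rw [← MonoidHom.range_eq_top]
    apply eq_top F
    · rw [MonoidHom.coe_range]
      exact (isCompact_range hq).isClosed
    · intro x
      exact ⟨⟨_, hgen x⟩, rfl⟩
  have hinj : Function.Injective q := by
    rw [injective_iff_map_eq_one]
    rintro ⟨⟨y, x⟩, hxy⟩ h1
    have h1 : y = 1 := h1
    subst h1
    by_contra hne
    have hx : x ≠ 1 := fun hh => hne (Subtype.ext (Prod.ext rfl hh))
    obtain ⟨n, ψ, hψ, hψx⟩ := exists_perm hx
    let j : Idx F := ⟨n, fun x => ψ (v x), hv n ψ hψ⟩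
    let a : UG F × P →* PF n :=
      ((Pi.evalMonoidHom (fun j : Idx F => PF j.1) j).comp (UG F).subtype).comp (MonoidHom.fst _ _)
    let b : UG F × P →* PF n := ψ.comp (MonoidHom.snd _ _)
    have ha : Continuous a :=
      (continuous_apply j).comp (continuous_subtype_val.comp continuous_fst)
    have hb : Continuous b := hψ.comp continuous_snd
    have hle : D ≤ a.eqLocus b := by
      apply Subgroup.topologicalClosure_minimal _ _ (isClosed_eq ha hb)
      rw [Subgroup.closure_le]
      rintro _ ⟨x, rfl⟩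
      rfl
    have h2 : a (1, x) = b (1, x) := hle hxy
    have h3 : a (1, x) = 1 := by
      change ((1 : UG F) : Big F) j = 1
      rfl
    rw [h3] at h2
    exact hψx h2.symm
  let e : D ≃* UG F := MulEquiv.ofBijective q ⟨hinj, hsurj⟩
  have he : Continuous e.symm :=
    Continuous.continuous_symm_of_equiv_compact_to_t2 (f := e.toEquiv) hq
  refine ⟨((MonoidHom.snd _ _).comp D.subtype).comp e.symm.toMonoidHom,
    (continuous_snd.comp continuous_subtype_val).comp he, fun x => ?_⟩
  have : e.symm (ugen F x) = ⟨_, hgen x⟩ := by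
    rw [MulEquiv.symm_apply_eq]
    rfl
  change (e.symm (ugen F x)).1.2 = v x
  rw [this]

end

/-! ### free profinite groups -/

/-- the test maps with finite support -/
def finSupp (S : Type u) : ∀ n, Set (S → PF n) := fun _ => {f | {s | f s ≠ 1}.Finite}

theorem conv_finSupp {S P : Type u} [Group P] [TopologicalSpace P] (v : S → P)
    (hv : ConvergesToOne v) (n : ℕ) (ψ : P →* PF n) (hψ : Continuous ψ) :
    (fun s => ψ (v s)) ∈ finSupp S n := by
  have h1 : IsOpen ((ψ.ker : Subgroup P) : Set P) := by
    have : ((ψ.ker : Subgroup P) : Set P) = ψ ⁻¹' {1} := by ext; simp [MonoidHom.mem_ker]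
    rw [this]
    exact (isOpen_discrete _).preimage hψ
  exact hv _ h1

theorem free_isFree (S : Type u) : IsFreeProfinite (ugen (finSupp S)) := by
  refine ⟨?_, ?_⟩
  · intro U hU
    obtain ⟨O, hO, hOU⟩ := isOpen_induced_iff.1 hU
    have h1 : (1 : Big (finSupp S)) ∈ O := by
      have : (1 : UG (finSupp S)) ∈ Subtype.val ⁻¹' O := by rw [hOU]; exact U.one_mem
      exact this
    obtain ⟨I, w, hw, hwO⟩ := isOpen_pi_iff.1 hO 1 h1
    refine Set.Finite.subset (Set.Finite.biUnion I.finite_toSet
      (t := fun j => {s | j.2.1 s ≠ 1}) fun j _ => j.2.2) ?_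
    intro s hs
    by_contra hcon
    simp only [mem_iUnion, not_exists] at hcon
    apply hs
    have : ugen (finSupp S) s ∈ (U : Set (UG (finSupp S))) := by
      rw [← hOU]
      apply hwO
      intro j hj
      have h2 := hcon j hj
      simp only [mem_setOf_eq, not_not] at h2
      change j.2.1 s ∈ w j
      rw [h2]
      exact (hw j hj).2
    exact this
  · intro P _ _ _ v hv
    obtain ⟨Φ, h1, h2⟩ := univ_exists (finSupp S) v (fun n ψ hψ => conv_finSupp v hv n ψ hψ)
    refine ⟨Φ, ⟨h1, h2⟩, ?_⟩
    rintro Ψ ⟨h3, h4⟩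
    exact univ_ext _ h3 h1 fun x => by rw [h4, h2]

/-! ### free profinite products -/

/-- the test maps which are continuous homomorphisms on `A` and `B` -/
def homPair (A B : Type u) [Group A] [TopologicalSpace A] [Group B] [TopologicalSpace B] :
    ∀ n, Set (A ⊕ B → PF n) := fun n =>
  {f | ∃ (a : A →* PF n) (b : B →* PF n), Continuous a ∧ Continuous b ∧ f = Sum.elim a b}

section
variable (A B : Type u) [Group A] [TopologicalSpace A] [Group B] [TopologicalSpace B]

/-- the left factor -/
def inlHom : A →* UG (homPair A B) where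
  toFun x := ugen (homPair A B) (Sum.inl x)
  map_one' := by
    apply Subtype.ext
    funext ⟨n, f, a, b, ha, hb, hf⟩
    change f (Sum.inl 1) = 1
    rw [hf]
    exact map_one a
  map_mul' x y := by
    apply Subtype.ext
    funext ⟨n, f, a, b, ha, hb, hf⟩
    change f (Sum.inl (x * y)) = f (Sum.inl x) * f (Sum.inl y)
    rw [hf]
    exact map_mul a x y

/-- the right factor -/
def inrHom : B →* UG (homPair A B) where
  toFun x := ugen (homPair A B) (Sum.inr x)
  map_one' := by
    apply Subtype.ext
    funext ⟨n, f, a, b, ha, hb, hf⟩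
    change f (Sum.inr 1) = 1
    rw [hf]
    exact map_one b
  map_mul' x y := by
    apply Subtype.ext
    funext ⟨n, f, a, b, ha, hb, hf⟩
    change f (Sum.inr (x * y)) = f (Sum.inr x) * f (Sum.inr y)
    rw [hf]
    exact map_mul b x y

theorem prod_isProd : IsFreeProfiniteProduct (inlHom A B) (inrHom A B) := by
  refine ⟨?_, ?_, ?_⟩
  · refine Continuous.subtype_mk (continuous_pi ?_) _
    rintro ⟨n, f, a, b, ha, hb, hf⟩
    change Continuous fun x => f (Sum.inl x)
    rw [hf]
    exact ha
  · refine Continuous.subtype_mk (continuous_pi ?_) _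
    rintro ⟨n, f, a, b, ha, hb, hf⟩
    change Continuous fun x => f (Sum.inr x)
    rw [hf]
    exact hb
  · intro P _ _ _ v w hv hw
    obtain ⟨Φ, h1, h2⟩ := univ_exists (homPair A B) (Sum.elim v w) (fun n ψ hψ =>
      ⟨ψ.comp v, ψ.comp w, hψ.comp hv, hψ.comp hw, by
        funext x
        rcases x with x | x <;> rfl⟩)
    refine ⟨Φ, ⟨h1, ?_, ?_⟩, ?_⟩
    · ext x
      exact h2 (Sum.inl x)
    · ext x
      exact h2 (Sum.inr x)
    · rintro Ψ ⟨h3, h4, h5⟩
      refine univ_ext _ h3 h1 fun x => ?_
      rw [h2]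
      rcases x with x | x
      · exact DFunLike.congr_fun h4 x
      · exact DFunLike.congr_fun h5 x

end

end Pool.Agent.K7.H29.PP
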