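import Pool.Agent.K7.H29.PP.Section
import Pool.Agent.K7.H29.PP.Univ

set_option autoImplicit false

/-! # The affine group over the clopen sets of a profinite space -/

namespace Pool.Agent.K7.H29.PP

open MulAction Topology Set
open scoped Pointwise

universe u

/-- the clopen sets of `T` -/
abbrev Clp (T : Type u) [TopologicalSpace T] : Type u := {V : Set T // IsClopen V}

/-- the module -/
abbrev MM (T : Type u) [TopologicalSpace T] : Type u := Clp T → PF 2

/-- the element of order two -/
def sw : PF 2 := (Equiv.swap 0 1 : Equiv.Perm (Fin 2))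

theorem sw_ne : sw ≠ 1 := by
  intro h
  have h1 : (Equiv.swap 0 1 : Equiv.Perm (Fin 2)) = 1 := h
  revert h1
  decide

theorem pf2 (x : PF 2) : x = 1 ∨ x = sw := by
  have : ∀ x : Equiv.Perm (Fin 2), x = 1 ∨ x = Equiv.swap 0 1 := by decide
  exact this x

section
variable (G T : Type u) [Group G] [TopologicalSpace T] [MulAction G T] [ContinuousConstSMul G T]

variable {G T}

/-- the preimage of a clopen set -/
def pre (g : G) (V : Clp T) : Clp T :=
  ⟨(fun t => g • t) ⁻¹' V.1, V.2.preimage (continuous_const_smul g)⟩

theorem pre_one (V : Clp T) : pre (1 : G) V = V := by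
  apply Subtype.ext
  ext t
  simp [pre]

theorem pre_mul (g h : G) (V : Clp T) : pre (g * h) V = pre h (pre g V) := by
  apply Subtype.ext
  ext t
  simp [pre, mul_smul]

/-- the action on the module -/
def act (g : G) (m : MM T) : MM T := fun V => m (pre g V)

theorem act_one (m : MM T) : act (1 : G) m = m := by
  funext V
  simp [act, pre_one]

theorem act_mul (g h : G) (m : MM T) : act (g * h) m = act g (act h m) := by
  funext V
  simp [act, pre_mul]

theorem act_map_mul (g : G) (m m' : MM T) : act g (m * m') = act g m * act g m' := rfl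

theorem act_map_one (g : G) : act g (1 : MM T) = 1 := rfl

theorem act_map_inv (g : G) (m : MM T) : act g m⁻¹ = (act g m)⁻¹ := rfl

variable (G T)

/-- the affine group -/
def EE : Type u := MM T × G

instance : Group (EE G T) where
  mul a b := (a.1 * act a.2 b.1, a.2 * b.2)
  one := (1, 1)
  inv a := (act a.2⁻¹ a.1⁻¹, a.2⁻¹)
  mul_assoc a b c := by
    apply Prod.ext
    · change (a.1 * act a.2 b.1) * act (a.2 * b.2) c.1 = a.1 * act a.2 (b.1 * act b.2 c.1)
      rw [act_map_mul, act_mul, mul_assoc]
    · exact mul_assoc a.2 b.2 c.2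
  one_mul a := by
    apply Prod.ext
    · change (1 : MM T) * act (1 : G) a.1 = a.1
      rw [act_one, one_mul]
    · exact one_mul a.2
  mul_one a := by
    apply Prod.ext
    · change a.1 * act a.2 (1 : MM T) = a.1
      rw [act_map_one, mul_one]
    · exact mul_one a.2
  inv_mul_cancel a := by
    apply Prod.ext
    · change act a.2⁻¹ a.1⁻¹ * act a.2⁻¹ a.1 = 1
      rw [← act_map_mul, inv_mul_cancel, act_map_one]
    · exact inv_mul_cancel a.2

variable {G T}

theorem EE.mul_def (a b : EE G T) : a * b = (a.1 * act a.2 b.1, a.2 * b.2) := rfl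

theorem EE.one_def : (1 : EE G T) = ((1 : MM T), (1 : G)) := rfl

theorem EE.inv_def (a : EE G T) : a⁻¹ = (act a.2⁻¹ a.1⁻¹, a.2⁻¹) := rfl

/-- the projection to the group -/
def sndHom : EE G T →* G where
  toFun a := a.2
  map_one' := rfl
  map_mul' _ _ := rfl

/-- the complement -/
def compl : G →* EE G T where
  toFun g := ((1 : MM T), g)
  map_one' := rfl
  map_mul' a b := by
    apply Prod.ext
    · change (1 : MM T) = 1 * act a 1
      rw [act_map_one, one_mul]
    · rfl

/-- the module as a subgroup -/
def base : MM T →* EE G T where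
  toFun m := (m, (1 : G))
  map_one' := rfl
  map_mul' a b := by
    apply Prod.ext
    · change a * b = a * act (1 : G) b
      rw [act_one]
    · exact (mul_one (1 : G)).symm

variable [TopologicalSpace G]

instance : TopologicalSpace (EE G T) := inferInstanceAs (TopologicalSpace (MM T × G))

theorem continuous_base : Continuous (base : MM T →* EE G T) :=
  Continuous.prodMk continuous_id continuous_const

theorem continuous_compl : Continuous (compl : G →* EE G T) :=
  Continuous.prodMk continuous_const continuous_id

theorem continuous_sndHom : Continuous (sndHom : EE G T →* G) := continuous_snd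

end

section
variable {G T : Type u} [Group G] [TopologicalSpace G] [ProfiniteGroup G] [TopologicalSpace T]
  [ProfiniteSpace T] [MulAction G T] [ContinuousSMul G T]

theorem pre_locConst (V : Clp T) : IsLocallyConstant (fun g : G => pre g V) := by
  have h1 := (smul_locConst (Γ := G) V.2).comp_continuous (continuous_inv (G := G))
  rw [IsLocallyConstant.iff_eventually_eq] at h1 ⊢
  intro g
  filter_upwards [h1 g] with g' hg'
  apply Subtype.ext
  have e : ∀ x : G, (pre x V).1 = x⁻¹ • V.1 := by
    intro x
    rw [← preimage_smul_inv, inv_inv]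
    rfl
  rw [e, e]
  exact hg'

theorem continuous_act : Continuous fun x : G × MM T => act x.1 x.2 := by
  refine continuous_pi fun V => ?_
  rw [continuous_iff_continuousAt]
  rintro ⟨g, m⟩
  have h1 : ∀ᶠ x : G × MM T in 𝓝 (g, m), act x.1 x.2 V = x.2 (pre g V) := by
    have := (IsLocallyConstant.iff_eventually_eq _).1 (pre_locConst (G := G) V) g
    have h2 : ∀ᶠ x : G × MM T in 𝓝 (g, m), pre x.1 V = pre g V :=
      (continuous_fst.tendsto (g, m)).eventually this
    filter_upwards [h2] with x hx
    change x.2 (pre x.1 V) = _
    rw [hx]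
  have h3 : ContinuousAt (fun x : G × MM T => x.2 (pre g V)) (g, m) :=
    ((continuous_apply (pre g V)).comp continuous_snd).continuousAt
  exact h3.congr (h1.mono fun x hx => hx.symm)

theorem continuous_one' : Continuous (fun x : EE G T => (x.1 : MM T)) := continuous_fst

theorem continuous_two' : Continuous (fun x : EE G T => (x.2 : G)) := continuous_snd

instance : IsTopologicalGroup (EE G T) where
  continuous_mul := by
    have a1 : Continuous fun x : EE G T × EE G T => (x.1.1 : MM T) :=
      continuous_one'.comp continuous_fst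
    have a2 : Continuous fun x : EE G T × EE G T => (x.1.2 : G) :=
      continuous_two'.comp continuous_fst
    have b1 : Continuous fun x : EE G T × EE G T => (x.2.1 : MM T) :=
      continuous_one'.comp continuous_snd
    have b2 : Continuous fun x : EE G T × EE G T => (x.2.2 : G) :=
      continuous_two'.comp continuous_snd
    have h1 : Continuous fun x : EE G T × EE G T => (x.1.1 * act x.1.2 x.2.1 : MM T) :=
      a1.mul (continuous_act.comp (a2.prodMk b1))
    have h2 : Continuous fun x : EE G T × EE G T => (x.1.2 * x.2.2 : G) := a2.mul b2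
    exact h1.prodMk h2
  continuous_inv := by
    have h1 : Continuous fun x : EE G T => (act x.2⁻¹ x.1⁻¹ : MM T) :=
      continuous_act.comp (continuous_two'.inv.prodMk continuous_one'.inv)
    have h2 : Continuous fun x : EE G T => (x.2⁻¹ : G) := continuous_two'.inv
    exact h1.prodMk h2

instance : CompactSpace (EE G T) := inferInstanceAs (CompactSpace (MM T × G))
instance : T2Space (EE G T) := inferInstanceAs (T2Space (MM T × G))
instance : TotallyDisconnectedSpace (EE G T) :=
  inferInstanceAs (TotallyDisconnectedSpace (MM T × G))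
instance : ProfiniteGroup (EE G T) := {}

open Classical in
/-- the characteristic map -/
noncomputable def chi (t : T) : MM T := fun V => if t ∈ V.1 then sw else 1

omit [ProfiniteGroup G] [TopologicalSpace G] [ContinuousSMul G T] [ProfiniteSpace T] in
theorem chi_smul [ContinuousConstSMul G T] (g : G) (t : T) : chi (g • t) = act g (chi t) := by
  funext V
  rfl

omit [ProfiniteSpace T] in
theorem continuous_chi : Continuous (chi : T → MM T) := by
  refine continuous_pi fun V => ?_
  apply IsLocallyConstant.continuous
  rw [IsLocallyConstant.iff_eventually_eq]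
  intro t
  by_cases h : t ∈ V.1
  · filter_upwards [V.2.2.mem_nhds h] with y hy
    simp [chi, h, hy]
  · filter_upwards [V.2.1.isOpen_compl.mem_nhds h] with y hy
    have hy : y ∉ V.1 := hy
    simp [chi, h, hy]

theorem chi_injective : Function.Injective (chi : T → MM T) := by
  intro t t' h
  by_contra hne
  obtain ⟨V, hV, h1, h2⟩ := exists_isClopen_of_totally_separated hne
  have h3 := congrFun h ⟨V, hV⟩
  have h2 : t' ∉ V := h2
  simp only [chi, h1, h2, if_true, if_false] at h3
  exact sw_ne h3

omit [ProfiniteSpace T] in
/-- a closed subgroup of the module which contains the basis is everything -/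
theorem module_top (C : Subgroup (MM T)) (hC : IsClosed (C : Set (MM T)))
    (h : ∀ V : Clp T, (Pi.mulSingle V sw : MM T) ∈ C) (m : MM T) : m ∈ C := by
  classical
  have hfin : ∀ I : Finset (Clp T), ∃ c ∈ C, (∀ V ∈ I, c V = m V) ∧ ∀ V ∉ I, c V = 1 := by
    intro I
    induction I using Finset.induction_on with
    | empty => exact ⟨1, C.one_mem, by simp, fun _ _ => rfl⟩
    | insert V I hV ih =>
      obtain ⟨c, hc, h1, h2⟩ := ih
      have h3 : (Pi.mulSingle V (m V) : MM T) ∈ C := by
        rcases pf2 (m V) with h4 | h4
        · rw [h4, Pi.mulSingle_one]; exact C.one_mem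
        · rw [h4]; exact h V
      refine ⟨c * Pi.mulSingle V (m V), C.mul_mem hc h3, ?_, ?_⟩
      · intro W hW
        rcases Finset.mem_insert.1 hW with rfl | hW
        · rw [Pi.mul_apply, h2 _ hV, Pi.mulSingle_eq_same, one_mul]
        · have hne : W ≠ V := fun hh => hV (hh ▸ hW)
          rw [Pi.mul_apply, h1 W hW, Pi.mulSingle_eq_of_ne hne, mul_one]
      · intro W hW
        rw [Finset.mem_insert, not_or] at hW
        rw [Pi.mul_apply, h2 W hW.2, Pi.mulSingle_eq_of_ne hW.1, mul_one]
  have : m ∈ closure (C : Set (MM T)) := by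
    rw [mem_closure_iff]
    intro O hO hm
    obtain ⟨I, w, hw, hwO⟩ := isOpen_pi_iff.1 hO m hm
    obtain ⟨c, hc, h1, -⟩ := hfin I
    refine ⟨c, hwO ?_, hc⟩
    intro V hV
    rw [h1 V hV]
    exact (hw V hV).2
  rwa [hC.closure_eq] at this

omit [ProfiniteGroup G] in
theorem affine_top (C : Subgroup (EE G T)) (hC : IsClosed (C : Set (EE G T)))
    (h : ∀ V : Clp T, (base (Pi.mulSingle V sw) : EE G T) ∈ C)
    (h' : ∀ g : G, (compl g : EE G T) ∈ C) (x : EE G T) : x ∈ C := by
  have h1 : x = base x.1 * compl x.2 := by
    apply Prod.ext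
    · change x.1 = x.1 * act (1 : G) (1 : MM T)
      rw [act_map_one, mul_one]
    · exact (one_mul x.2).symm
  rw [h1]
  refine C.mul_mem ?_ (h' _)
  have h2 := module_top (C.comap base) (hC.preimage continuous_base) (fun V => h V) x.1
  exact h2

theorem conv_base : ConvergesToOne (fun V : Clp T => (base (Pi.mulSingle V sw) : EE G T)) := by
  classical
  intro U hU
  have h1 : IsOpen ((U.comap (base : MM T →* EE G T) : Subgroup (MM T)) : Set (MM T)) :=
    hU.preimage continuous_base
  obtain ⟨I, w, hw, hwO⟩ := isOpen_pi_iff.1 h1 1 (Subgroup.one_mem _)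
  refine I.finite_toSet.subset ?_
  intro V hV
  by_contra hVI
  apply hV
  have : (Pi.mulSingle V sw : MM T) ∈
      ((U.comap (base : MM T →* EE G T) : Subgroup (MM T)) : Set (MM T)) := by
    apply hwO
    intro W hW
    have hne : W ≠ V := fun hh => hVI (hh ▸ hW)
    rw [Pi.mulSingle_eq_of_ne hne]
    exact (hw W hW).2
  exact this

end

end Pool.Agent.K7.H29.PP
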