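import Mathlib

set_option autoImplicit false

/-!
# Projective piles and free profinite products: definitions

Groups act from the left (a right action `t ^ g` corresponds to the left action `g • t = t ^ (g⁻¹)`).
-/

namespace Pool.Agent.K7.H29.PP

open MulAction

universe u

/-- A profinite group. -/
class ProfiniteGroup (G : Type u) [Group G] [TopologicalSpace G] : Prop extends
  IsTopologicalGroup G, CompactSpace G, T2Space G, TotallyDisconnectedSpace G

/-- A profinite space. -/
class ProfiniteSpace (T : Type u) [TopologicalSpace T] : Prop extends
  CompactSpace T, T2Space T, TotallyDisconnectedSpace T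

/-- `(a, a') : (B, Y) → (A, X)` is a rigid epimorphism of (finite) piles: both maps are surjective,
`a' (b • y) = a b • a' y`, each stabiliser `B_y` is mapped isomorphically onto the stabiliser of
`a' y`, and the induced map of the orbit spaces `Y / B → X / A` is bijective. -/
structure RigidEpi {A B X Y : Type u} [Group A] [Group B] [MulAction A X] [MulAction B Y]
    (a : B →* A) (a' : Y → X) : Prop where
  surj : Function.Surjective a
  surj' : Function.Surjective a'
  map_smul : ∀ (b : B) (y : Y), a' (b • y) = a b • a' y
  stab : ∀ y : Y, Set.BijOn a (stabilizer B y) (stabilizer A (a' y))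
  orbit : ∀ y y' : Y, a' y' ∈ orbit A (a' y) → y' ∈ orbit B y

/-- The pile `(G, T)` is projective: for every rigid epimorphism `(a, a') : (B, Y) → (A, X)` of
finite piles every morphism `(f, f') : (G, T) → (A, X)` lifts to a morphism
`(c, c') : (G, T) → (B, Y)`. (Continuous maps to finite discrete spaces are the locally constant
maps.) -/
def ProjectivePile (G T : Type u) [Group G] [TopologicalSpace G] [TopologicalSpace T]
    [MulAction G T] : Prop :=
  ∀ (A B X Y : Type u) [Group A] [Group B] [Finite A] [Finite B] [Finite X] [Finite Y]
    [MulAction A X] [MulAction B Y] (a : B →* A) (a' : Y → X), RigidEpi a a' →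
    ∀ (f : G →* A) (f' : T → X), IsLocallyConstant f → IsLocallyConstant f' →
      (∀ (g : G) (t : T), f' (g • t) = f g • f' t) →
      ∃ (c : G →* B) (c' : T → Y), IsLocallyConstant c ∧ IsLocallyConstant c' ∧
        (∀ (g : G) (t : T), c' (g • t) = c g • c' t) ∧ a.comp c = f ∧ a' ∘ c' = f'

/-- The map `b : S → P` from a set to a topological group converges to `1`: every open subgroup
contains all but finitely many of its values. -/
def ConvergesToOne {S P : Type u} [Group P] [TopologicalSpace P] (b : S → P) : Prop :=
  ∀ U : Subgroup P, IsOpen (U : Set P) → {s | b s ∉ U}.Finite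

/-- The profinite group `F` is free with basis `b : S → F` (converging to `1`). -/
structure IsFreeProfinite {S F : Type u} [Group F] [TopologicalSpace F] (b : S → F) : Prop where
  conv : ConvergesToOne b
  ump : ∀ (P : Type u) [Group P] [TopologicalSpace P] [ProfiniteGroup P] (v : S → P),
    ConvergesToOne v → ∃! Φ : F →* P, Continuous Φ ∧ ∀ s, Φ (b s) = v s

/-- The profinite group `H` is the free profinite product of the profinite groups `A` and `B`,
with the homomorphisms `i : A → H` and `j : B → H`. -/
structure IsFreeProfiniteProduct {A B H : Type u} [Group A] [TopologicalSpace A] [Group B]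
    [TopologicalSpace B] [Group H] [TopologicalSpace H] (i : A →* H) (j : B →* H) : Prop where
  cont_left : Continuous i
  cont_right : Continuous j
  ump : ∀ (P : Type u) [Group P] [TopologicalSpace P] [ProfiniteGroup P] (v : A →* P)
    (w : B →* P), Continuous v → Continuous w →
    ∃! Φ : H →* P, Continuous Φ ∧ Φ.comp i = v ∧ Φ.comp j = w

end Pool.Agent.K7.H29.PP
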