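import Pool.Agent.K7.H29.PP.Defs

set_option autoImplicit false

/-! # Lifting along the quotient of a finite pile by a freely acting normal subgroup -/

namespace Pool.Agent.K7.H29.PP

open MulAction Topology Set

universe u

section
variable {B Y : Type u} [Group B] [MulAction B Y] (K : Subgroup B) [K.Normal]

/-- the action of `B / K` on `Y / K` -/
@[reducible] def quotAction : MulAction (B ⧸ K) (orbitRel.Quotient K Y) where
  smul b y := Quotient.liftOn₂' b y
    (fun b y => (Quotient.mk'' (b • y) : orbitRel.Quotient K Y)) (by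
      intro b1 y1 b2 y2 hb hy
      rw [QuotientGroup.leftRel_apply] at hb
      rw [orbitRel_apply] at hy
      obtain ⟨⟨k, hk⟩, hky⟩ := hy
      have hky : k • y2 = y1 := hky
      apply Quotient.sound'
      rw [orbitRel_apply]
      have hb' : b2 * (b1⁻¹ * b2)⁻¹ = b1 := by group
      have h1 : b2 * ((b1⁻¹ * b2)⁻¹ * k) * b2⁻¹ ∈ K :=
        Subgroup.Normal.conj_mem inferInstance _ (K.mul_mem (K.inv_mem hb) hk) b2
      refine ⟨⟨_, h1⟩, ?_⟩
      change (b2 * ((b1⁻¹ * b2)⁻¹ * k) * b2⁻¹) • b2 • y2 = b1 • y1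
      rw [← hky, smul_smul, smul_smul]
      congr 1
      group)
  one_smul := by
    intro y
    induction y using Quotient.inductionOn' with
    | h y => exact congrArg (Quotient.mk'' : Y → orbitRel.Quotient K Y) (one_smul B y)
  mul_smul := by
    intro a b y
    induction a using Quotient.inductionOn' with
    | h a =>
      induction b using Quotient.inductionOn' with
      | h b =>
        induction y using Quotient.inductionOn' with
        | h y => exact congrArg (Quotient.mk'' : Y → orbitRel.Quotient K Y) (mul_smul a b y)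

theorem quotAction_mk (b : B) (y : Y) :
    letI := quotAction (Y := Y) K
    (QuotientGroup.mk b : B ⧸ K) • (Quotient.mk'' y : orbitRel.Quotient K Y) =
      Quotient.mk'' (b • y) := rfl

theorem rigid_quot (hfree : ∀ k ∈ K, ∀ y : Y, k • y = y → k = 1) :
    letI := quotAction (Y := Y) K
    RigidEpi (QuotientGroup.mk' K) (fun y : Y => (Quotient.mk'' y : orbitRel.Quotient K Y)) := by
  letI := quotAction (Y := Y) K
  have key : ∀ (b : B) (y y' : Y), (QuotientGroup.mk b : B ⧸ K) •
      (Quotient.mk'' y : orbitRel.Quotient K Y) = Quotient.mk'' y' → ∃ k ∈ K, (k * b) • y = y' := by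
    intro b y y' h
    rw [quotAction_mk] at h
    have h1 := Quotient.exact' h
    rw [orbitRel_apply] at h1
    obtain ⟨⟨k, hk⟩, hky⟩ := h1
    have hky : k • y' = b • y := hky
    refine ⟨k⁻¹, K.inv_mem hk, ?_⟩
    rw [mul_smul, ← hky, inv_smul_smul]
  refine ⟨QuotientGroup.mk'_surjective K, Quotient.mk''_surjective, fun b y => rfl, ?_, ?_⟩
  · intro y
    refine ⟨?_, ?_, ?_⟩
    · intro b hb
      rw [SetLike.mem_coe, mem_stabilizer_iff] at hb ⊢
      change (QuotientGroup.mk b : B ⧸ K) • (Quotient.mk'' y : orbitRel.Quotient K Y) = _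
      rw [quotAction_mk, hb]
    · intro b hb b' hb' hbb
      rw [SetLike.mem_coe, mem_stabilizer_iff] at hb hb'
      have h1 : b⁻¹ * b' ∈ K := QuotientGroup.eq.1 hbb
      have h2 : (b⁻¹ * b') • y = y := by
        rw [mul_smul, hb', inv_smul_eq_iff, hb]
      have := hfree _ h1 y h2
      exact (inv_mul_eq_one.1 this)
    · intro a ha
      obtain ⟨b, rfl⟩ := QuotientGroup.mk'_surjective K a
      rw [SetLike.mem_coe, mem_stabilizer_iff] at ha
      obtain ⟨k, hk, hkb⟩ := key b y y ha
      refine ⟨k * b, ?_, ?_⟩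
      · rw [SetLike.mem_coe, mem_stabilizer_iff]; exact hkb
      · rw [map_mul]
        have : QuotientGroup.mk' K k = 1 := (QuotientGroup.eq_one_iff k).2 hk
        rw [this, one_mul]
  · rintro y y' ⟨a, ha⟩
    obtain ⟨b, rfl⟩ := QuotientGroup.mk'_surjective K a
    obtain ⟨k, hk, hkb⟩ := key b y y' ha
    exact ⟨k * b, hkb⟩

end

/-- a projective pile lifts along the quotient of a finite pile by a normal subgroup which acts
freely -/
theorem ProjectivePile.lift_free {G T : Type u} [Group G] [TopologicalSpace G]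
    [TopologicalSpace T] [MulAction G T] (h : ProjectivePile G T) {B Y : Type u} [Group B]
    [Finite B] [Finite Y] [MulAction B Y] (K : Subgroup B) [K.Normal]
    (hfree : ∀ k ∈ K, ∀ y : Y, k • y = y → k = 1) (f : G →* B ⧸ K)
    (f' : T → orbitRel.Quotient K Y) (hf : IsLocallyConstant f) (hf' : IsLocallyConstant f')
    (hff : ∀ (g : G) (t : T) (b : B) (y : Y), f g = QuotientGroup.mk b → f' t = Quotient.mk'' y →
      f' (g • t) = Quotient.mk'' (b • y)) :
    ∃ (c : G →* B) (c' : T → Y), IsLocallyConstant c ∧ IsLocallyConstant c' ∧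
      (∀ (g : G) (t : T), c' (g • t) = c g • c' t) ∧ (∀ g, QuotientGroup.mk (c g) = f g) ∧
      ∀ t, (Quotient.mk'' (c' t) : orbitRel.Quotient K Y) = f' t := by
  letI := quotAction (Y := Y) K
  haveI : Finite (B ⧸ K) := Quotient.finite _
  haveI : Finite (orbitRel.Quotient K Y) := Quotient.finite _
  obtain ⟨c, c', h1, h2, h3, h4, h5⟩ := h (B ⧸ K) B (orbitRel.Quotient K Y) Y
    (QuotientGroup.mk' K) (fun y : Y => (Quotient.mk'' y : orbitRel.Quotient K Y))
    (rigid_quot K hfree) f f' hf hf' (by
      intro g t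
      obtain ⟨b, hb⟩ := QuotientGroup.mk_surjective (f g)
      obtain ⟨y, hy⟩ := Quotient.mk''_surjective (f' t)
      rw [hff g t b y hb.symm hy.symm, ← hb, ← hy, quotAction_mk])
  exact ⟨c, c', h1, h2, h3, fun g => DFunLike.congr_fun h4 g, fun t => congrFun h5 t⟩

end Pool.Agent.K7.H29.PP
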