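import Pool.Agent.K7.H29.PP.Affine

set_option autoImplicit false
set_option linter.unusedSectionVars false

/-! # Projective piles embed in free profinite products -/

namespace Pool.Agent.K7.H29.PP

open MulAction Topology Set

universe u

section
variable {G T : Type u} [Group G] [TopologicalSpace G] [ProfiniteGroup G] [TopologicalSpace T]
  [ProfiniteSpace T] [MulAction G T] [ContinuousSMul G T]
variable {H : Type u} [Group H] [TopologicalSpace H] [ProfiniteGroup H]

/-- the stabiliser of the base point in the subgroup -/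
def zsub (α : H →* EE G T) : Subgroup H := (compl : G →* EE G T).range.comap α

theorem mem_zsub (α : H →* EE G T) (h : H) : h ∈ zsub α ↔ α h = compl (α h).2 := by
  constructor
  · rintro ⟨g, hg⟩
    rw [← hg]
    rfl
  · intro hh
    exact ⟨(α h).2, hh.symm⟩

/-- the space -/
def yset (α : H →* EE G T) : Set (T × H) := {x | α x.2 = base (chi x.1)}

theorem compl_base (g : G) (m : MM T) :
    (compl g : EE G T) * base m = base (act g m) * compl g := by
  apply Prod.ext
  · change (1 : MM T) * act g m = act g m * act (1 : G) (1 : MM T)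
    rw [act_map_one, one_mul, mul_one]
  · change g * 1 = 1 * g
    rw [mul_one, one_mul]

theorem base_inj {m m' : MM T} (h : (base m : EE G T) = base m') : m = m' :=
  congrArg (fun x : EE G T => (x.1 : MM T)) h

/-- the action of the subgroup on the space -/
@[reducible] def yact (α : H →* EE G T) (i : G →* H) (hi : ∀ g, α (i g) = compl g) :
    MulAction (zsub α) (yset α) where
  smul h x := ⟨((α h.1).2 • x.1.1, h.1 * x.1.2 * (i (α h.1).2)⁻¹), by
    have h1 := (mem_zsub α h.1).1 h.2
    have h2 : α x.1.2 = base (chi x.1.1) := x.2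
    change α (h.1 * x.1.2 * (i (α h.1).2)⁻¹) = base (chi ((α h.1).2 • x.1.1))
    rw [map_mul, map_mul, map_inv, hi, h2, mul_inv_eq_iff_eq_mul, chi_smul]
    conv_lhs => rw [h1]
    exact compl_base _ _⟩
  one_smul x := by
    apply Subtype.ext
    apply Prod.ext
    · change (α (1 : H)).2 • x.1.1 = x.1.1
      rw [map_one]
      exact one_smul G _
    · change (1 : H) * x.1.2 * (i (α (1 : H)).2)⁻¹ = x.1.2
      rw [map_one]
      change (1 : H) * x.1.2 * (i (1 : G))⁻¹ = x.1.2
      rw [map_one, inv_one, one_mul, mul_one]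
  mul_smul a b x := by
    apply Subtype.ext
    apply Prod.ext
    · change (α (a.1 * b.1)).2 • x.1.1 = (α a.1).2 • (α b.1).2 • x.1.1
      rw [map_mul]
      exact mul_smul (α a.1).2 (α b.1).2 x.1.1
    · change a.1 * b.1 * x.1.2 * (i (α (a.1 * b.1)).2)⁻¹ =
        a.1 * (b.1 * x.1.2 * (i (α b.1).2)⁻¹) * (i (α a.1).2)⁻¹
      rw [map_mul]
      have : i (α a.1 * α b.1).2 = i (α a.1).2 * i (α b.1).2 := map_mul i _ _
      rw [this]
      group

theorem embed [Nonempty T] (hproj : ProjectivePile G T) (α : H →* EE G T) (hα : Continuous α)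
    (hs : Function.Surjective α) (i : G →* H) (hic : Continuous i)
    (hi : ∀ g, α (i g) = compl g) :
    ∃ e : G →* H, Continuous e ∧ Function.Injective e ∧
      ∀ t : T, ∃ h : H, ∀ g : G, g • t = t ↔ ∃ g' : G, e g = h * i g' * h⁻¹ := by
  letI := yact α i hi
  have hrange : IsClosed (((compl : G →* EE G T).range : Subgroup (EE G T)) : Set (EE G T)) := by
    rw [MonoidHom.coe_range]
    exact (isCompact_range continuous_compl).isClosed
  have hZ : IsClosed ((zsub α : Subgroup H) : Set H) := hrange.preimage hα
  have hY : IsClosed (yset α) :=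
    isClosed_eq (hα.comp continuous_snd)
      (continuous_base.comp (continuous_chi.comp continuous_fst))
  haveI : CompactSpace (zsub α) := isCompact_iff_compactSpace.1 hZ.isCompact
  haveI : CompactSpace (yset α) := isCompact_iff_compactSpace.1 hY.isCompact
  haveI : ProfiniteGroup (zsub α) := {}
  haveI : ProfiniteSpace (yset α) := {}
  have hα2 : Continuous fun h : H => ((α h).2 : G) := continuous_two'.comp hα
  haveI : ContinuousSMul (zsub α) (yset α) := ⟨by
    have c1 : Continuous fun x : zsub α × yset α => x.1.1 :=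
      continuous_subtype_val.comp continuous_fst
    have c2 : Continuous fun x : zsub α × yset α => x.2.1.1 :=
      continuous_fst.comp (continuous_subtype_val.comp continuous_snd)
    have c3 : Continuous fun x : zsub α × yset α => x.2.1.2 :=
      continuous_snd.comp (continuous_subtype_val.comp continuous_snd)
    have c4 : Continuous fun x : zsub α × yset α => ((α x.1.1).2 : G) := hα2.comp c1
    refine Continuous.subtype_mk
      (f := fun x : zsub α × yset α => ((α x.1.1).2 • x.2.1.1, x.1.1 * x.2.1.2 *
        (i (α x.1.1).2)⁻¹)) ?_ _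
    exact (c4.smul c2).prodMk ((c1.mul c3).mul (hic.comp c4).inv)⟩
  let p : zsub α →* G := (sndHom.comp α).comp (zsub α).subtype
  let π : yset α → T := fun x => x.1.1
  have hr : Rigid p π := by
    refine ⟨(continuous_sndHom.comp hα).comp continuous_subtype_val,
      continuous_fst.comp continuous_subtype_val, ?_, ?_, fun _ _ => rfl, ?_, ?_⟩
    · intro g
      refine ⟨⟨i g, g, (hi g).symm⟩, ?_⟩
      change (α (i g)).2 = g
      rw [hi]
      rfl
    · intro t
      obtain ⟨r, hr⟩ := hs (base (chi t))
      exact ⟨⟨(t, r), hr⟩, rfl⟩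
    · intro n hn x hx
      have hn : (α n.1).2 = 1 := hn
      have h1 : n.1 * x.1.2 * (i (α n.1).2)⁻¹ = x.1.2 :=
        congrArg (fun z : yset α => z.1.2) hx
      rw [hn, map_one, inv_one, mul_one] at h1
      exact Subtype.ext (mul_eq_right.1 h1)
    · rintro ⟨⟨t, r⟩, hr⟩ ⟨⟨t', r'⟩, hr'⟩ htt
      have htt : t = t' := htt
      subst htt
      have hr : α r = base (chi t) := hr
      have hr' : α r' = base (chi t) := hr'
      have h1 : α (r' * r⁻¹) = 1 := by rw [map_mul, map_inv, hr, hr', mul_inv_cancel]
      refine ⟨⟨r' * r⁻¹, 1, ?_⟩, ?_, ?_⟩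
      · rw [h1, map_one]
      · change (α (r' * r⁻¹)).2 = 1
        rw [h1]
        rfl
      · apply Subtype.ext
        apply Prod.ext
        · change (α (r' * r⁻¹)).2 • t = t
          rw [h1]
          exact one_smul G t
        · change r' * r⁻¹ * r * (i (α (r' * r⁻¹)).2)⁻¹ = r'
          rw [h1]
          change r' * r⁻¹ * r * (i (1 : G))⁻¹ = r'
          rw [map_one, inv_one, mul_one, inv_mul_cancel_right]
  obtain ⟨s, s', hsc, -, h1, h2, h3⟩ := exists_section hproj hr
  have hsnd : ∀ g : G, (α (s g).1).2 = g := h1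
  refine ⟨(zsub α).subtype.comp s, continuous_subtype_val.comp hsc, ?_, ?_⟩
  · intro g g' hgg
    have : s g = s g' := Subtype.ext hgg
    rw [← h1 g, this, h1]
  · intro t
    have ht : (s' t).1.1 = t := h2 t
    refine ⟨(s' t).1.2, fun g => ?_⟩
    change g • t = t ↔ ∃ g', (s g).1 = (s' t).1.2 * i g' * (s' t).1.2⁻¹
    constructor
    · intro hg
      have h4 := h3 g t
      rw [hg] at h4
      have h5 : (s' t).1.2 = (s g).1 * (s' t).1.2 * (i (α (s g).1).2)⁻¹ :=
        congrArg (fun z : yset α => z.1.2) h4
      rw [hsnd] at h5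
      refine ⟨g, ?_⟩
      rw [eq_mul_inv_iff_mul_eq]
      exact (eq_mul_inv_iff_mul_eq.1 h5).symm
    · rintro ⟨g', hg'⟩
      have h6 : α (s' t).1.2 = base (chi t) := by
        have : α (s' t).1.2 = base (chi (s' t).1.1) := (s' t).2
        rw [ht] at this
        exact this
      have h7 : g' = g := by
        have h8 := congrArg (fun z : EE G T => (z.2 : G)) (congrArg α hg')
        rw [map_mul, map_mul, map_inv, hi, h6] at h8
        have h9 : (α (s g).1).2 = 1 * g' * (1 : G)⁻¹ := h8
        rw [hsnd, one_mul, inv_one, mul_one] at h9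
        exact h9.symm
      subst h7
      have h10 := (s g' • s' t).2
      have h11 : α ((s g').1 * (s' t).1.2 * (i (α (s g').1).2)⁻¹) =
          base (chi ((α (s g').1).2 • (s' t).1.1)) := h10
      rw [hsnd, ht, hg', inv_mul_cancel_right, mul_inv_cancel_right, h6] at h11
      exact (chi_injective (base_inj h11)).symm

end

/-- **Every projective pile `(G, T)` embeds in `G ⨿ F`.** -/
theorem main {G T : Type u} [Group G] [TopologicalSpace G] [ProfiniteGroup G]
    [TopologicalSpace T] [ProfiniteSpace T] [MulAction G T] [ContinuousSMul G T]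
    (hproj : ProjectivePile G T) :
    ∃ (F H : Type u) (_ : Group F) (_ : TopologicalSpace F) (_ : ProfiniteGroup F) (_ : Group H)
      (_ : TopologicalSpace H) (_ : ProfiniteGroup H) (b : Clp T → F) (i : G →* H) (j : F →* H),
      IsFreeProfinite b ∧ IsFreeProfiniteProduct i j ∧
      ∃ e : G →* H, Continuous e ∧ Function.Injective e ∧
        ∀ t : T, ∃ h : H, ∀ g : G, g • t = t ↔ ∃ g' : G, e g = h * i g' * h⁻¹ := by
  refine ⟨UG (finSupp (Clp T)), UG (homPair G (UG (finSupp (Clp T)))), inferInstance,
    inferInstance, inferInstance, inferInstance, inferInstance, inferInstance, ugen _,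
    inlHom _ _, inrHom _ _, free_isFree _, prod_isProd _ _, ?_⟩
  have hF := free_isFree (Clp T)
  have hP := prod_isProd G (UG (finSupp (Clp T)))
  obtain ⟨w, ⟨hw1, hw2⟩, -⟩ := hF.ump (EE G T) _ conv_base
  obtain ⟨α, ⟨hα, hα1, hα2⟩, -⟩ := hP.ump (EE G T) compl w continuous_compl hw1
  have hi : ∀ g, α (inlHom G (UG (finSupp (Clp T))) g) = compl g := fun g =>
    DFunLike.congr_fun hα1 g
  have hj : ∀ x, α (inrHom G (UG (finSupp (Clp T))) x) = w x := fun x =>
    DFunLike.congr_fun hα2 x
  have hs : Function.Surjective α := by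
    intro x
    have hcl : IsClosed ((α.range : Subgroup (EE G T)) : Set (EE G T)) := by
      rw [MonoidHom.coe_range]
      exact (isCompact_range hα).isClosed
    exact affine_top α.range hcl (fun V => ⟨_, (hj _).trans (hw2 V)⟩) (fun g => ⟨_, hi g⟩) x
  rcases isEmpty_or_nonempty T with hT | hT
  · refine ⟨inlHom _ _, hP.cont_left, ?_, fun t => (IsEmpty.false t).elim⟩
    intro g g' hgg
    have h1 := congrArg (fun z : EE G T => (z.2 : G)) (congrArg α hgg)
    simp only [hi] at h1
    exact h1
  · exact embed hproj α hα hs _ hP.cont_left hi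

end Pool.Agent.K7.H29.PP
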