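import Pool.Agent.K7.H29.PP.Step

set_option autoImplicit false

/-! # Rigid epimorphisms onto projective piles have sections -/

namespace Pool.Agent.K7.H29.PP

open MulAction Topology Set

universe u

section
variable {Γ Y G T : Type u} [Group Γ] [TopologicalSpace Γ] [TopologicalSpace Y] [MulAction Γ Y]
  [Group G]

/-- the conditions in Zorn's lemma -/
structure Good (p : Γ →* G) (π : Y → T) (x : Subgroup Γ × Set Y) : Prop where
  closed : IsClosed (x.1 : Set Γ)
  closed' : IsClosed x.2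
  stable : ∀ γ ∈ x.1, ∀ y ∈ x.2, γ • y ∈ x.2
  surj : ∀ g, ∃ γ ∈ x.1, p γ = g
  surj' : ∀ t, ∃ y ∈ x.2, π y = t
  trans : ∀ y ∈ x.2, ∀ y' ∈ x.2, π y = π y' → ∃ n ∈ x.1, p n = 1 ∧ n • y = y'

end

theorem exists_minimal {Γ Y G T : Type u} [Group Γ] [TopologicalSpace Γ] [ProfiniteGroup Γ]
    [TopologicalSpace Y] [ProfiniteSpace Y] [MulAction Γ Y] [Group G] [TopologicalSpace G]
    [T2Space G] [TopologicalSpace T] [T2Space T] [MulAction G T] {p : Γ →* G} {π : Y → T}
    (hr : Rigid p π) :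
    ∃ m : Subgroup Γ × Set Y, Good p π m ∧ ∀ x, Good p π x → x ≤ m → m ≤ x := by
  have key := zorn_le₀ (α := (Subgroup Γ × Set Y)ᵒᵈ)
    {x | Good p π (OrderDual.ofDual x)} (by
    intro c hcs hc
    rcases c.eq_empty_or_nonempty with rfl | ⟨x₀, hx₀⟩
    · refine ⟨OrderDual.toDual (⊤, univ), ?_, by simp⟩
      exact ⟨isClosed_univ, isClosed_univ, fun _ _ _ _ => mem_univ _,
        fun g => by
          obtain ⟨γ, hγ⟩ := hr.surj g
          exact ⟨γ, Subgroup.mem_top _, hγ⟩,
        fun t => by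
          obtain ⟨y, hy⟩ := hr.surj' t
          exact ⟨y, mem_univ _, hy⟩,
        fun y _ y' _ h => by
          obtain ⟨n, h1, h2⟩ := hr.trans y y' h
          exact ⟨n, Subgroup.mem_top _, h1, h2⟩⟩
    · haveI : Nonempty c := ⟨⟨x₀, hx₀⟩⟩
      let A : c → Subgroup Γ := fun x => (OrderDual.ofDual x.1).1
      let Z : c → Set Y := fun x => (OrderDual.ofDual x.1).2
      have hg : ∀ x : c, Good p π (OrderDual.ofDual x.1) := fun x => hcs x.2
      have htot : ∀ x y : c, (A x ≤ A y ∧ Z x ⊆ Z y) ∨ (A y ≤ A x ∧ Z y ⊆ Z x) := by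
        intro x y
        rcases hc.total x.2 y.2 with h | h
        · exact Or.inr h
        · exact Or.inl h
      refine ⟨OrderDual.toDual (⨅ x, A x, ⋂ x, Z x), ?_, ?_⟩
      · refine ⟨?_, ?_, ?_, ?_, ?_, ?_⟩
        · change IsClosed ((⨅ x, A x : Subgroup Γ) : Set Γ)
          rw [Subgroup.coe_iInf]
          exact isClosed_iInter fun x => (hg x).closed
        · exact isClosed_iInter fun x => (hg x).closed'
        · intro γ hγ y hy
          have hγ : γ ∈ (⨅ x, A x : Subgroup Γ) := hγ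
          rw [Subgroup.mem_iInf] at hγ
          exact mem_iInter.2 fun x => (hg x).stable γ (hγ x) y (mem_iInter.1 hy x)
        · intro g
          have h1 : (⋂ x : c, {γ | γ ∈ A x ∧ p γ = g}).Nonempty := by
            have hcl : ∀ x : c, IsClosed {γ | γ ∈ A x ∧ p γ = g} := fun x =>
              (hg x).closed.inter (isClosed_singleton.preimage hr.cont)
            refine IsCompact.nonempty_iInter_of_directed_nonempty_isCompact_isClosed _ ?_ ?_
              (fun x => (hcl x).isCompact) hcl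
            · intro x y
              rcases htot x y with h | h
              · exact ⟨x, Subset.rfl, fun γ hγ => ⟨h.1 hγ.1, hγ.2⟩⟩
              · exact ⟨y, fun γ hγ => ⟨h.1 hγ.1, hγ.2⟩, Subset.rfl⟩
            · intro x
              obtain ⟨γ, h1, h2⟩ := (hg x).surj g
              exact ⟨γ, h1, h2⟩
          obtain ⟨γ, hγ⟩ := h1
          rw [mem_iInter] at hγ
          refine ⟨γ, ?_, (hγ ⟨x₀, hx₀⟩).2⟩
          change γ ∈ (⨅ x, A x : Subgroup Γ)
          rw [Subgroup.mem_iInf]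
          exact fun x => (hγ x).1
        · intro t
          have h1 : (⋂ x : c, {y | y ∈ Z x ∧ π y = t}).Nonempty := by
            have hcl : ∀ x : c, IsClosed {y | y ∈ Z x ∧ π y = t} := fun x =>
              (hg x).closed'.inter (isClosed_singleton.preimage hr.cont')
            refine IsCompact.nonempty_iInter_of_directed_nonempty_isCompact_isClosed _ ?_ ?_
              (fun x => (hcl x).isCompact) hcl
            · intro x y
              rcases htot x y with h | h
              · exact ⟨x, Subset.rfl, fun γ hγ => ⟨h.2 hγ.1, hγ.2⟩⟩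
              · exact ⟨y, fun γ hγ => ⟨h.2 hγ.1, hγ.2⟩, Subset.rfl⟩
            · intro x
              obtain ⟨γ, h1, h2⟩ := (hg x).surj' t
              exact ⟨γ, h1, h2⟩
          obtain ⟨y, hy⟩ := h1
          rw [mem_iInter] at hy
          exact ⟨y, mem_iInter.2 fun x => (hy x).1, (hy ⟨x₀, hx₀⟩).2⟩
        · intro y hy y' hy' hyy
          obtain ⟨n, h1, h2, h3⟩ := (hg ⟨x₀, hx₀⟩).trans y (mem_iInter.1 hy _) y'
            (mem_iInter.1 hy' _) hyy
          refine ⟨n, ?_, h2, h3⟩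
          change n ∈ (⨅ x, A x : Subgroup Γ)
          rw [Subgroup.mem_iInf]
          intro x
          obtain ⟨m, k1, k2, k3⟩ := (hg x).trans y (mem_iInter.1 hy _) y' (mem_iInter.1 hy' _) hyy
          have h4 : n⁻¹ * m = 1 := by
            apply hr.free _ (by rw [map_mul, map_inv, h2, k2]; simp) y
            rw [mul_smul, k3, inv_smul_eq_iff, h3]
          rw [inv_mul_eq_one] at h4
          exact h4 ▸ k1
      · intro z hz
        change (⨅ x, A x, ⋂ x, Z x) ≤ OrderDual.ofDual z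
        exact ⟨iInf_le A ⟨z, hz⟩, iInter_subset Z ⟨z, hz⟩⟩)
  obtain ⟨m, hm⟩ := key
  exact ⟨OrderDual.ofDual m, hm.prop, fun x hx hxm =>
    hm.le_of_ge (y := OrderDual.toDual x) hx hxm⟩

section
variable {Γ Y : Type u} [Group Γ] [MulAction Γ Y]

/-- the action of a subgroup on a stable subset -/
@[reducible] def subAction (A : Subgroup Γ) (Z : Set Y) (h : ∀ γ ∈ A, ∀ y ∈ Z, γ • y ∈ Z) :
    MulAction A Z where
  smul γ y := ⟨γ.1 • y.1, h γ.1 γ.2 y.1 y.2⟩
  one_smul y := Subtype.ext (one_smul Γ y.1)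
  mul_smul a b y := Subtype.ext (mul_smul a.1 b.1 y.1)

end

theorem exists_section {Γ Y G T : Type u} [Group Γ] [TopologicalSpace Γ] [ProfiniteGroup Γ]
    [TopologicalSpace Y] [ProfiniteSpace Y] [MulAction Γ Y] [ContinuousSMul Γ Y] [Group G]
    [TopologicalSpace G] [T2Space G] [TopologicalSpace T] [T2Space T] [MulAction G T] [Nonempty T]
    (h : ProjectivePile G T) {p : Γ →* G} {π : Y → T} (hr : Rigid p π) :
    ∃ (s : G →* Γ) (s' : T → Y), Continuous s ∧ Continuous s' ∧ (∀ g, p (s g) = g) ∧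
      (∀ t, π (s' t) = t) ∧ ∀ g t, s' (g • t) = s g • s' t := by
  obtain ⟨⟨A, Z⟩, hg, hmin⟩ := exists_minimal hr
  obtain ⟨hA, hZ, hst, hs, hs', htr⟩ := hg
  simp only at hA hZ hst hs hs' htr
  letI := subAction A Z hst
  haveI : CompactSpace A := isCompact_iff_compactSpace.1 hA.isCompact
  haveI : CompactSpace Z := isCompact_iff_compactSpace.1 hZ.isCompact
  haveI : ProfiniteGroup A := {}
  haveI : ProfiniteSpace Z := {}
  haveI : ContinuousSMul A Z := ⟨by
    refine Continuous.subtype_mk (f := fun x : A × Z => x.1.1 • x.2.1) ?_ _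
    exact (continuous_subtype_val.comp continuous_fst).smul
      (continuous_subtype_val.comp continuous_snd)⟩
  haveI : Nonempty Z := by
    obtain ⟨t⟩ := ‹Nonempty T›
    obtain ⟨y, hy, -⟩ := hs' t
    exact ⟨⟨y, hy⟩⟩
  have hr' : Rigid (p.comp A.subtype) (fun y : Z => π y.1) := by
    refine ⟨hr.cont.comp continuous_subtype_val, hr.cont'.comp continuous_subtype_val, ?_, ?_, ?_,
      ?_, ?_⟩
    · intro g
      obtain ⟨γ, h1, h2⟩ := hs g
      exact ⟨⟨γ, h1⟩, h2⟩
    · intro t
      obtain ⟨γ, h1, h2⟩ := hs' t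
      exact ⟨⟨γ, h1⟩, h2⟩
    · intro γ y
      exact hr.map_smul γ.1 y.1
    · intro n hn y hy
      exact Subtype.ext (hr.free n.1 hn y.1 (congrArg Subtype.val hy))
    · intro y y' hyy
      obtain ⟨n, h1, h2, h3⟩ := htr y.1 y.2 y'.1 y'.2 hyy
      exact ⟨⟨n, h1⟩, h2, Subtype.ext h3⟩
  have hker : ∀ n ∈ A, p n = 1 → n = 1 := by
    by_contra hcon
    push Not at hcon
    obtain ⟨n, hn, hpn, hn1⟩ := hcon
    obtain ⟨A', Z', k1, k2, k3, k4, k5, k6, ⟨m, hm⟩⟩ := exists_smaller h hr'
      ⟨⟨n, hn⟩, hpn, fun hh => hn1 (congrArg Subtype.val hh)⟩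
    have hgood : Good p π (A'.map A.subtype, Subtype.val '' Z') := by
      refine ⟨?_, ?_, ?_, ?_, ?_, ?_⟩
      · change IsClosed ((A'.map A.subtype : Subgroup Γ) : Set Γ)
        rw [Subgroup.coe_map]
        exact hA.isClosedEmbedding_subtypeVal.isClosedMap _ k1
      · exact hZ.isClosedEmbedding_subtypeVal.isClosedMap _ k2
      · rintro _ ⟨γ, hγ, rfl⟩ _ ⟨y, hy, rfl⟩
        exact ⟨γ • y, k3 γ hγ y hy, rfl⟩
      · intro g
        obtain ⟨γ, h1, h2⟩ := k4 g
        exact ⟨γ.1, ⟨γ, h1, rfl⟩, h2⟩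
      · intro t
        obtain ⟨y, h1, h2⟩ := k5 t
        exact ⟨y.1, ⟨y, h1, rfl⟩, h2⟩
      · rintro _ ⟨y, hy, rfl⟩ _ ⟨y', hy', rfl⟩ hyy
        obtain ⟨n, h1, h2, h3⟩ := k6 y hy y' hy' hyy
        exact ⟨n.1, ⟨n, h1, rfl⟩, h2, congrArg Subtype.val h3⟩
    have h1 := hmin _ hgood ⟨by
      change A'.map A.subtype ≤ A
      rintro _ ⟨γ, -, rfl⟩
      exact γ.2, by
      change Subtype.val '' Z' ⊆ Z
      rintro _ ⟨y, -, rfl⟩
      exact y.2⟩
    have h2 : A ≤ A'.map A.subtype := h1.1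
    obtain ⟨γ, hγ, hγm⟩ := h2 m.2
    exact hm ((Subtype.ext hγm : γ = m) ▸ hγ)
  have hbij : Function.Bijective (p.comp A.subtype) := by
    refine ⟨?_, hr'.surj⟩
    rw [injective_iff_map_eq_one]
    intro n hn
    exact Subtype.ext (hker n.1 n.2 hn)
  have hbij' : Function.Bijective (fun y : Z => π y.1) := by
    refine ⟨?_, hr'.surj'⟩
    intro y y' hyy
    obtain ⟨n, hn, rfl⟩ := hr'.trans y y' hyy
    have : n = 1 := Subtype.ext (hker n.1 n.2 hn)
    rw [this, one_smul]
  let e : A ≃* G := MulEquiv.ofBijective (p.comp A.subtype) hbij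
  let e' : Z ≃ T := Equiv.ofBijective _ hbij'
  have he : Continuous e.symm :=
    Continuous.continuous_symm_of_equiv_compact_to_t2 (f := e.toEquiv) hr'.cont
  have he' : Continuous e'.symm :=
    Continuous.continuous_symm_of_equiv_compact_to_t2 (f := e') hr'.cont'
  refine ⟨A.subtype.comp e.symm.toMonoidHom, fun t => (e'.symm t).1,
    continuous_subtype_val.comp he, continuous_subtype_val.comp he', ?_, ?_, ?_⟩
  · intro g
    exact e.apply_symm_apply g
  · intro t
    exact e'.apply_symm_apply t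
  · intro g t
    have : e'.symm (g • t) = e.symm g • e'.symm t := by
      apply e'.injective
      rw [e'.apply_symm_apply]
      have h1 := hr'.map_smul (e.symm g) (e'.symm t)
      have h2 : (p.comp A.subtype) (e.symm g) = g := e.apply_symm_apply g
      have h3 : (fun y : Z => π y.1) (e'.symm t) = t := e'.apply_symm_apply t
      rw [h2] at h1
      have h1 : e' (e.symm g • e'.symm t) = g • (fun y : Z => π y.1) (e'.symm t) := h1
      rw [h1, h3]
    exact congrArg Subtype.val this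

end Pool.Agent.K7.H29.PP
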