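import Pool.Agent.K7.H29.PP.Defs

set_option autoImplicit false

/-! # Finite families of clopen sets separating the orbits of a free action -/

namespace Pool.Agent.K7.H29.PP

open MulAction Topology Set
open scoped Pointwise

universe u

section
variable {Γ Y : Type u} [Group Γ] [TopologicalSpace Γ] [ProfiniteGroup Γ] [TopologicalSpace Y]
  [ProfiniteSpace Y] [MulAction Γ Y] [ContinuousSMul Γ Y]

/-- the points which are sent into `C` by some element of `K` -/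
def hit (K : Set Γ) (C : Set Y) : Set Y := {z | ∃ n ∈ K, n • z ∈ C}

omit [ProfiniteSpace Y] in
theorem hit_clopen {K : Set Γ} {C : Set Y} (hK : IsClosed K) (hC : IsClopen C) :
    IsClopen (hit K C) := by
  constructor
  · have h1 : IsClosed {x : Γ × Y | x.1 ∈ K ∧ x.1 • x.2 ∈ C} :=
      (hK.preimage continuous_fst).inter (hC.1.preimage continuous_smul)
    have h2 := isClosedMap_snd_of_compactSpace _ h1
    convert h2 using 1
    ext z
    simp [hit]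
  · have : hit K C = ⋃ n ∈ K, (fun z : Y => n • z) ⁻¹' C := by
      ext z; simp [hit]
    rw [this]
    exact isOpen_biUnion fun n _ => hC.2.preimage (continuous_const_smul n)

omit [ProfiniteGroup Γ] in
theorem isOpen_maps {W W' : Set Y} (hW : IsClosed W) (hW' : IsOpen W') :
    IsOpen {γ : Γ | ∀ z ∈ W, γ • z ∈ W'} := by
  rw [← isClosed_compl_iff]
  have h1 : IsClosed {x : Γ × Y | x.2 ∈ W ∧ x.1 • x.2 ∈ W'ᶜ} :=
    (hW.preimage continuous_snd).inter (hW'.isClosed_compl.preimage continuous_smul)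
  have h2 := isClosedMap_fst_of_compactSpace _ h1
  convert h2 using 1
  ext γ
  simp

theorem smul_locConst {W : Set Y} (hW : IsClopen W) :
    IsLocallyConstant (fun γ : Γ => γ • W) := by
  rw [IsLocallyConstant.iff_eventually_eq]
  intro γ₀
  have hc : IsClopen (γ₀ • W) := by
    rw [← preimage_smul_inv]
    exact hW.preimage (continuous_const_smul _)
  have h1 : {γ : Γ | ∀ z ∈ W, γ • z ∈ γ₀ • W} ∈ 𝓝 γ₀ :=
    (isOpen_maps hW.1 hc.2).mem_nhds (fun z hz => smul_mem_smul_set hz)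
  have h2 : {γ : Γ | ∀ z ∈ Wᶜ, γ • z ∈ (γ₀ • W)ᶜ} ∈ 𝓝 γ₀ :=
    (isOpen_maps hW.2.isClosed_compl hc.1.isOpen_compl).mem_nhds (fun z hz => by
      intro h
      exact hz (smul_mem_smul_set_iff.1 h))
  filter_upwards [h1, h2] with γ g1 g2
  ext x
  constructor
  · rintro ⟨z, hz, rfl⟩
    exact g1 z hz
  · intro hx
    by_contra hxn
    refine g2 (γ⁻¹ • x) ?_ ?_
    · intro h
      exact hxn ⟨_, h, smul_inv_smul γ x⟩
    · rw [smul_inv_smul]; exact hx

theorem orbit_finite {W : Set Y} (hW : IsClopen W) :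
    (Set.range fun γ : Γ => γ • W).Finite :=
  (smul_locConst hW).range_finite

theorem exists_one (N V : Subgroup Γ) (hN : IsClosed (N : Set Γ)) (hV : IsOpen (V : Set Γ))
    (hfree : ∀ n ∈ N, ∀ y : Y, n • y = y → n = 1) (y : Y) :
    ∃ W : Set Y, IsClopen W ∧ y ∈ W ∧ (∀ n ∈ N, n ∈ V → n • W = W) ∧
      ∀ z ∈ W, ∀ n ∈ N, n ∉ V → n • z ∉ W := by
  have hVc : IsClosed (V : Set Γ) := V.isClosed_of_isOpen hV
  have hcont : Continuous fun n : Γ => n • y := continuous_id.smul continuous_const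
  set P : Set Y := (fun n : Γ => n • y) '' ((N : Set Γ) ∩ V) with hP
  set Q : Set Y := (fun n : Γ => n • y) '' ((N : Set Γ) ∩ (V : Set Γ)ᶜ) with hQ
  have hK1 : IsClosed ((N : Set Γ) ∩ V) := hN.inter hVc
  have hK2 : IsClosed ((N : Set Γ) ∩ (V : Set Γ)ᶜ) := hN.inter hV.isClosed_compl
  have hPc : IsClosed P := (hK1.isCompact.image hcont).isClosed
  have hQc : IsClosed Q := (hK2.isCompact.image hcont).isClosed
  have hPQ : P ⊆ Qᶜ := by
    rintro _ ⟨n, ⟨hn1, hn2⟩, rfl⟩ ⟨m, ⟨hm1, hm2⟩, hmn⟩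
    have h1 : (n⁻¹ * m) • y = y := by
      rw [mul_smul]
      have : m • y = n • y := hmn
      rw [this, inv_smul_smul]
    have h2 := hfree _ (N.mul_mem (N.inv_mem hn1) hm1) y h1
    have h3 : m = n := by rw [inv_mul_eq_one] at h2; exact h2.symm
    exact hm2 (h3 ▸ hn2)
  obtain ⟨C, hC, hPC, hCQ⟩ := exists_clopen_of_closed_subset_open hPc hQc.isOpen_compl hPQ
  set W0 : Set Y := (hit ((N : Set Γ) ∩ V) Cᶜ)ᶜ with hW0
  have hW0c : IsClopen W0 := (hit_clopen hK1 hC.compl).compl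
  have mem0 : ∀ z, z ∈ W0 ↔ ∀ n ∈ N, n ∈ V → n • z ∈ C := by
    intro z
    rw [hW0, mem_compl_iff]
    constructor
    · intro h n hn hnV
      by_contra hc
      exact h ⟨n, ⟨hn, hnV⟩, hc⟩
    · rintro h ⟨n, ⟨hn, hnV⟩, hc⟩
      exact hc (h n hn hnV)
  set W1 : Set Y := W0 ∩ (hit ((N : Set Γ) ∩ (V : Set Γ)ᶜ) W0)ᶜ with hW1
  have mem1 : ∀ z, z ∈ W1 ↔ z ∈ W0 ∧ ∀ n ∈ N, n ∉ V → n • z ∉ W0 := by
    intro z
    rw [hW1, mem_inter_iff, mem_compl_iff]
    refine and_congr_right fun _ => ?_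
    constructor
    · intro h n hn hnV hc
      exact h ⟨n, ⟨hn, hnV⟩, hc⟩
    · rintro h ⟨n, ⟨hn, hnV⟩, hc⟩
      exact h n hn hnV hc
  have inv : ∀ m ∈ N, m ∈ V → ∀ z ∈ W1, m • z ∈ W1 := by
    intro m hm hmV z hz
    rw [mem1] at hz ⊢
    refine ⟨?_, ?_⟩
    · rw [mem0]
      intro n hn hnV
      rw [smul_smul]
      exact (mem0 z).1 hz.1 _ (N.mul_mem hn hm) (V.mul_mem hnV hmV)
    · intro n hn hnV
      rw [smul_smul]
      refine hz.2 _ (N.mul_mem hn hm) fun h => hnV ?_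
      have := V.mul_mem h (V.inv_mem hmV)
      rwa [mul_inv_cancel_right] at this
  refine ⟨W1, hW0c.inter (hit_clopen hK2 hW0c).compl, ?_, ?_, ?_⟩
  · rw [mem1]
    refine ⟨?_, ?_⟩
    · rw [mem0]
      intro n hn hnV
      exact hPC ⟨n, ⟨hn, hnV⟩, rfl⟩
    · intro n hn hnV hc
      have h1 := (mem0 _).1 hc 1 N.one_mem V.one_mem
      rw [one_smul] at h1
      exact hCQ h1 ⟨n, ⟨hn, hnV⟩, rfl⟩
  · intro n hn hnV
    apply subset_antisymm
    · rintro _ ⟨z, hz, rfl⟩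
      exact inv n hn hnV z hz
    · intro z hz
      exact ⟨n⁻¹ • z, inv _ (N.inv_mem hn) (V.inv_mem hnV) z hz, smul_inv_smul n z⟩
  · intro z hz n hn hnV h
    exact ((mem1 z).1 hz).2 n hn hnV ((mem1 _).1 h).1

theorem exists_family (N V : Subgroup Γ) [N.Normal] [V.Normal] (hN : IsClosed (N : Set Γ))
    (hV : IsOpen (V : Set Γ)) (hfree : ∀ n ∈ N, ∀ y : Y, n • y = y → n = 1) :
    ∃ 𝒱 : Set (Set Y), 𝒱.Finite ∧ (∀ W ∈ 𝒱, IsClopen W) ∧ (∀ (γ : Γ), ∀ W ∈ 𝒱, γ • W ∈ 𝒱) ∧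
      (∀ n ∈ N, n ∈ V → ∀ W ∈ 𝒱, n • W = W) ∧
      ∀ y, ∃ W ∈ 𝒱, y ∈ W ∧ ∀ n ∈ N, n ∉ V → n • y ∉ W := by
  choose W hW1 hW2 hW3 hW4 using exists_one (Y := Y) N V hN hV hfree
  obtain ⟨F, hF⟩ := CompactSpace.isCompact_univ.elim_finite_subcover W (fun y => (hW1 y).2)
    (fun y _ => mem_iUnion.2 ⟨y, hW2 y⟩)
  refine ⟨⋃ y ∈ F, Set.range fun γ : Γ => γ • W y, ?_, ?_, ?_, ?_, ?_⟩
  · exact Set.Finite.biUnion F.finite_toSet fun y _ => orbit_finite (hW1 y)
  · intro U hU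
    simp only [mem_iUnion, mem_range] at hU
    obtain ⟨y, -, γ, rfl⟩ := hU
    rw [← preimage_smul_inv]
    exact (hW1 y).preimage (continuous_const_smul _)
  · intro γ U hU
    simp only [mem_iUnion, mem_range] at hU ⊢
    obtain ⟨y, hy, γ', rfl⟩ := hU
    exact ⟨y, hy, γ * γ', mul_smul _ _ _⟩
  · intro n hn hnV U hU
    simp only [mem_iUnion, mem_range] at hU
    obtain ⟨y, hy, γ, rfl⟩ := hU
    have h1 : γ⁻¹ * n * γ ∈ N := by
      have := Subgroup.Normal.conj_mem inferInstance n hn γ⁻¹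
      rwa [inv_inv] at this
    have h2 : γ⁻¹ * n * γ ∈ V := by
      have := Subgroup.Normal.conj_mem inferInstance n hnV γ⁻¹
      rwa [inv_inv] at this
    have h3 := hW3 y _ h1 h2
    calc n • γ • W y = (γ * (γ⁻¹ * n * γ)) • W y := by
          rw [← mul_smul]; congr 1; group
      _ = γ • W y := by rw [mul_smul, h3]
  · intro y
    obtain ⟨x, hx⟩ := mem_iUnion.1 (hF (mem_univ y))
    obtain ⟨hxF, hyx⟩ := mem_iUnion.1 hx
    refine ⟨W x, mem_iUnion₂.2 ⟨x, hxF, 1, one_smul _ _⟩, hyx, fun n hn hnV => hW4 x y hyx n hn hnV⟩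

end

end Pool.Agent.K7.H29.PP
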