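import Pool.Agent.K7.H29.PP.Sep
import Pool.Agent.K7.H29.PP.Free

set_option autoImplicit false

/-! # Shrinking a rigid epimorphism onto a projective pile -/

namespace Pool.Agent.K7.H29.PP

open MulAction Topology Set
open scoped Pointwise

universe u

/-- `(p, π)` is a rigid epimorphism of profinite piles: `π` is equivariant, and the kernel of `p` acts
freely on `Y` and transitively on the fibres of `π`. -/
structure Rigid {Γ Y G T : Type u} [Group Γ] [TopologicalSpace Γ] [TopologicalSpace Y]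
    [MulAction Γ Y] [Group G] [TopologicalSpace G] [TopologicalSpace T] [MulAction G T]
    (p : Γ →* G) (π : Y → T) : Prop where
  cont : Continuous p
  cont' : Continuous π
  surj : Function.Surjective p
  surj' : Function.Surjective π
  map_smul : ∀ (γ : Γ) (y : Y), π (γ • y) = p γ • π y
  free : ∀ n : Γ, p n = 1 → ∀ y : Y, n • y = y → n = 1
  trans : ∀ y y' : Y, π y = π y' → ∃ n : Γ, p n = 1 ∧ n • y = y'

section
variable {Γ Y : Type u} [Group Γ] [MulAction Γ Y] (𝒱 : Set (Set Y))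
  (hinv : ∀ (γ : Γ), ∀ W ∈ 𝒱, γ • W ∈ 𝒱)

/-- the action on the family -/
@[reducible] def famAction : MulAction Γ 𝒱 where
  smul γ W := ⟨γ • W.1, hinv γ W.1 W.2⟩
  one_smul W := Subtype.ext (one_smul Γ W.1)
  mul_smul a b W := Subtype.ext (mul_smul a b W.1)

/-- the permutations of the family -/
def perm : Γ →* Equiv.Perm 𝒱 :=
  letI := famAction 𝒱 hinv
  MulAction.toPermHom Γ 𝒱

theorem perm_apply (γ : Γ) (W : 𝒱) : ((perm 𝒱 hinv γ W : 𝒱) : Set Y) = γ • W.1 := rfl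

/-- the members of the family which contain `y` -/
def eta (y : Y) : Set 𝒱 := {W | y ∈ W.1}

theorem eta_smul (γ : Γ) (y : Y) : eta 𝒱 (γ • y) = (perm 𝒱 hinv γ) '' eta 𝒱 y := by
  ext W
  constructor
  · intro h
    refine ⟨perm 𝒱 hinv γ⁻¹ W, ?_, ?_⟩
    · change y ∈ ((perm 𝒱 hinv γ⁻¹ W : 𝒱) : Set Y)
      rw [perm_apply]
      have h : γ • y ∈ W.1 := h
      rw [mem_smul_set_iff_inv_smul_mem, inv_inv]
      exact h
    · rw [← Equiv.Perm.mul_apply, ← map_mul, mul_inv_cancel, map_one, Equiv.Perm.one_apply]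
  · rintro ⟨W', h, rfl⟩
    change γ • y ∈ ((perm 𝒱 hinv γ W' : 𝒱) : Set Y)
    rw [perm_apply]
    exact smul_mem_smul_set h

/-- the action of the finite group on the finite set -/
@[reducible] def finAction : MulAction (perm 𝒱 hinv).range (Set.range (eta 𝒱)) where
  smul b s := ⟨(b.1 : 𝒱 → 𝒱) '' s.1, by
    obtain ⟨γ, hγ⟩ := b.2
    obtain ⟨y, hy⟩ := s.2
    exact ⟨γ • y, by rw [eta_smul 𝒱 hinv, hγ, hy]⟩⟩
  one_smul s := Subtype.ext (by
    change ((1 : Equiv.Perm 𝒱) : 𝒱 → 𝒱) '' s.1 = s.1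
    simp)
  mul_smul a b s := Subtype.ext (by
    change ((a.1 * b.1 : Equiv.Perm 𝒱) : 𝒱 → 𝒱) '' s.1 = (a.1 : 𝒱 → 𝒱) '' ((b.1 : 𝒱 → 𝒱) '' s.1)
    rw [← image_comp]
    rfl)

end

section
variable {Γ Y : Type u} [Group Γ] [TopologicalSpace Γ] [ProfiniteGroup Γ] [TopologicalSpace Y]
  [ProfiniteSpace Y] [MulAction Γ Y] [ContinuousSMul Γ Y] (𝒱 : Set (Set Y))
  (hinv : ∀ (γ : Γ), ∀ W ∈ 𝒱, γ • W ∈ 𝒱)

theorem perm_locConst (hfin : 𝒱.Finite) (hcl : ∀ W ∈ 𝒱, IsClopen W) :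
    IsLocallyConstant (perm 𝒱 hinv : Γ → Equiv.Perm 𝒱) := by
  haveI : Finite 𝒱 := hfin
  rw [IsLocallyConstant.iff_eventually_eq]
  intro γ₀
  have h1 : ∀ᶠ γ in 𝓝 γ₀, ∀ W : 𝒱, γ • W.1 = γ₀ • W.1 := by
    rw [Filter.eventually_all]
    intro W
    exact (IsLocallyConstant.iff_eventually_eq _).1 (smul_locConst (hcl W.1 W.2)) γ₀
  filter_upwards [h1] with γ hγ
  ext W : 1
  exact Subtype.ext (hγ W)

omit [ProfiniteSpace Y] in
theorem eta_locConst (hfin : 𝒱.Finite) (hcl : ∀ W ∈ 𝒱, IsClopen W) :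
    IsLocallyConstant (eta 𝒱) := by
  haveI : Finite 𝒱 := hfin
  rw [IsLocallyConstant.iff_eventually_eq]
  intro y₀
  have h1 : ∀ᶠ y in 𝓝 y₀, ∀ W : 𝒱, y ∈ W.1 ↔ y₀ ∈ W.1 := by
    rw [Filter.eventually_all]
    intro W
    by_cases h : y₀ ∈ W.1
    · filter_upwards [(hcl W.1 W.2).2.mem_nhds h] with y hy
      exact ⟨fun _ => h, fun _ => hy⟩
    · filter_upwards [(hcl W.1 W.2).1.isOpen_compl.mem_nhds h] with y hy
      exact ⟨fun hh => absurd hh hy, fun hh => absurd hh h⟩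
  filter_upwards [h1] with y hy
  ext W
  exact hy W

end

theorem exists_smaller {Γ Y G T : Type u} [Group Γ] [TopologicalSpace Γ] [ProfiniteGroup Γ]
    [TopologicalSpace Y] [ProfiniteSpace Y] [MulAction Γ Y] [ContinuousSMul Γ Y] [Group G]
    [TopologicalSpace G] [T2Space G] [TopologicalSpace T] [T2Space T] [MulAction G T]
    (h : ProjectivePile G T) {p : Γ →* G} {π : Y → T} (hr : Rigid p π)
    (hne : ∃ n : Γ, p n = 1 ∧ n ≠ 1) [Nonempty Y] :
    ∃ (Γ' : Subgroup Γ) (Y' : Set Y), IsClosed (Γ' : Set Γ) ∧ IsClosed Y' ∧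
      (∀ γ ∈ Γ', ∀ y ∈ Y', γ • y ∈ Y') ∧ (∀ g, ∃ γ ∈ Γ', p γ = g) ∧ (∀ t, ∃ y ∈ Y', π y = t) ∧
      (∀ y ∈ Y', ∀ y' ∈ Y', π y = π y' → ∃ n ∈ Γ', p n = 1 ∧ n • y = y') ∧
      ∃ n, n ∉ Γ' := by
  obtain ⟨n₀, hn₀, hn₀1⟩ := hne
  obtain ⟨V, hV⟩ := ProfiniteGrp.exist_openNormalSubgroup_sub_open_nhds_of_one
    (isOpen_compl_singleton : IsOpen ({n₀}ᶜ : Set Γ)) (by simpa using hn₀1.symm)
  haveI hVn : (V : Subgroup Γ).Normal := V.isNormal'
  have hn₀V : n₀ ∉ (V : Subgroup Γ) := fun hh => hV hh rfl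
  have hker : IsClosed (p.ker : Set Γ) := by
    have : (p.ker : Set Γ) = p ⁻¹' {1} := by ext; simp [MonoidHom.mem_ker]
    rw [this]
    exact isClosed_singleton.preimage hr.cont
  obtain ⟨𝒱, hfin, hcl, hinv, hfix, hsep⟩ := exists_family (Y := Y) p.ker (V : Subgroup Γ) hker
    V.isOpen' (fun n hn y hy => hr.free n hn y hy)
  haveI : Finite 𝒱 := hfin
  letI := finAction 𝒱 hinv
  have hβ := perm_locConst 𝒱 hinv hfin hcl
  have hη := eta_locConst 𝒱 hfin hcl
  -- the finite pile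
  let B := (perm 𝒱 hinv).range
  let Y0 := Set.range (eta 𝒱)
  let β : Γ →* B := (perm 𝒱 hinv).rangeRestrict
  let η : Y → Y0 := fun y => ⟨eta 𝒱 y, y, rfl⟩
  have hβ' : IsLocallyConstant β := by
    rw [IsLocallyConstant.iff_eventually_eq] at hβ ⊢
    intro γ₀
    filter_upwards [hβ γ₀] with γ hγ
    exact Subtype.ext hγ
  have hη' : IsLocallyConstant η := by
    rw [IsLocallyConstant.iff_eventually_eq] at hη ⊢
    intro γ₀
    filter_upwards [hη γ₀] with γ hγ
    exact Subtype.ext hγ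
  have hηs : ∀ (γ : Γ) (y : Y), η (γ • y) = β γ • η y := fun γ y =>
    Subtype.ext (eta_smul 𝒱 hinv γ y)
  have hβs : Function.Surjective β := (perm 𝒱 hinv).rangeRestrict_surjective
  have hone : ∀ n ∈ p.ker, n ∈ (V : Subgroup Γ) → β n = 1 := by
    intro n hn hnV
    apply Subtype.ext
    ext W : 1
    exact Subtype.ext (hfix n hn hnV W.1 W.2)
  have hmemV : ∀ n ∈ p.ker, ∀ y : Y, β n • η y = η y → n ∈ (V : Subgroup Γ) := by
    intro n hn y hy
    by_contra hnV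
    obtain ⟨W, hW, hyW, hnW⟩ := hsep y
    have h1 : eta 𝒱 (n • y) = eta 𝒱 y := by
      rw [← hηs] at hy
      exact congrArg Subtype.val hy
    have h2 : (⟨W, hW⟩ : 𝒱) ∈ eta 𝒱 y := hyW
    rw [← h1] at h2
    exact hnW n hn hnV h2
  let K : Subgroup B := p.ker.map β
  haveI : K.Normal := Subgroup.Normal.map inferInstance β hβs
  have hKfree : ∀ k ∈ K, ∀ y : Y0, k • y = y → k = 1 := by
    rintro _ ⟨n, hn, rfl⟩ ⟨_, y, rfl⟩ hy
    exact hone n hn (hmemV n hn y hy)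
  have hkerle : p.ker ≤ ((QuotientGroup.mk' K).comp β).ker := by
    intro n hn
    rw [MonoidHom.mem_ker, MonoidHom.comp_apply, QuotientGroup.mk'_apply,
      QuotientGroup.eq_one_iff]
    exact ⟨n, hn, rfl⟩
  let f : G →* B ⧸ K := p.liftOfSurjective hr.surj ⟨(QuotientGroup.mk' K).comp β, hkerle⟩
  have hfp : ∀ γ, f (p γ) = QuotientGroup.mk (β γ) := fun γ =>
    MonoidHom.liftOfRightInverse_comp_apply p _ _ ⟨(QuotientGroup.mk' K).comp β, hkerle⟩ γ
  have hfib : ∀ y y' : Y, π y = π y' →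
      (Quotient.mk'' (η y) : orbitRel.Quotient K Y0) = Quotient.mk'' (η y') := by
    intro y y' hyy
    obtain ⟨n, hn, rfl⟩ := hr.trans y y' hyy
    apply Quotient.sound'
    rw [orbitRel_apply]
    refine ⟨⟨β n⁻¹, ⟨n⁻¹, p.ker.inv_mem hn, rfl⟩⟩, ?_⟩
    change β n⁻¹ • η (n • y) = η y
    rw [hηs, smul_smul, ← map_mul, inv_mul_cancel, map_one, one_smul]
  let f' : T → orbitRel.Quotient K Y0 := fun t => Quotient.mk'' (η (Function.surjInv hr.surj' t))
  have hfp' : ∀ y, f' (π y) = Quotient.mk'' (η y) := fun y =>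
    hfib _ _ (Function.surjInv_eq hr.surj' (π y))
  have hpq : IsQuotientMap p := hr.cont.isClosedMap.isQuotientMap hr.cont hr.surj
  have hπq : IsQuotientMap π := hr.cont'.isClosedMap.isQuotientMap hr.cont' hr.surj'
  have hf : IsLocallyConstant f := by
    intro s
    rw [← hpq.isOpen_preimage]
    have : p ⁻¹' (f ⁻¹' s) = β ⁻¹' ((QuotientGroup.mk : B → B ⧸ K) ⁻¹' s) := by
      ext γ
      simp only [mem_preimage, hfp]
    rw [this]
    exact hβ' _
  have hf' : IsLocallyConstant f' := by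
    intro s
    rw [← hπq.isOpen_preimage]
    have : π ⁻¹' (f' ⁻¹' s) = η ⁻¹' ((Quotient.mk'' : Y0 → orbitRel.Quotient K Y0) ⁻¹' s) := by
      ext γ
      simp only [mem_preimage, hfp']
    rw [this]
    exact hη' _
  obtain ⟨c, c', hc, hc', hcc, hcf, hcf'⟩ := h.lift_free K hKfree f f' hf hf' (by
    intro g t b y hg ht
    obtain ⟨γ, rfl⟩ := hr.surj g
    obtain ⟨z, rfl⟩ := hr.surj' t
    rw [hfp] at hg
    rw [hfp'] at ht
    rw [← hr.map_smul, hfp', hηs]
    have h1 := QuotientGroup.eq.1 hg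
    have h2 := Quotient.exact' ht
    rw [orbitRel_apply] at h2
    obtain ⟨⟨k, hk⟩, hky⟩ := h2
    have hky : k • y = η z := hky
    rw [← hky]
    apply Quotient.sound'
    rw [orbitRel_apply]
    have h3 : β γ * (k * ((β γ)⁻¹ * b)⁻¹) * (β γ)⁻¹ ∈ K :=
      Subgroup.Normal.conj_mem inferInstance _ (K.mul_mem hk (K.inv_mem h1)) _
    have h4 : (β γ * k) * b⁻¹ ∈ K := by
      have h5 : b⁻¹ * β γ ∈ K := by
        have := K.inv_mem h1
        rwa [mul_inv_rev, inv_inv] at this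
      have h6 : β γ * (k * (b⁻¹ * β γ)) * (β γ)⁻¹ ∈ K :=
        Subgroup.Normal.conj_mem inferInstance _ (K.mul_mem hk h5) _
      have h7 : β γ * (k * (b⁻¹ * β γ)) * (β γ)⁻¹ = (β γ * k) * b⁻¹ := by group
      rwa [h7] at h6
    refine ⟨⟨_, h4⟩, ?_⟩
    change ((β γ * k) * b⁻¹) • b • y = β γ • k • y
    rw [smul_smul, smul_smul]
    congr 1
    group)
  refine ⟨{ carrier := {γ | β γ = c (p γ)}
            one_mem' := by simp
            mul_mem' := by
              intro a b ha hb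
              simp only [mem_setOf_eq, map_mul] at ha hb ⊢
              rw [ha, hb]
            inv_mem' := by
              intro a ha
              simp only [mem_setOf_eq, map_inv] at ha ⊢
              rw [ha] },
    {y | η y = c' (π y)}, ?_, ?_, ?_, ?_, ?_, ?_, ?_⟩
  · have h1 : IsLocallyConstant (fun γ => (β γ, c (p γ))) :=
      hβ'.prodMk (hc.comp_continuous hr.cont)
    exact isOpen_compl_iff.1 (h1 {x | x.1 = x.2}ᶜ)
  · have h1 : IsLocallyConstant (fun y => (η y, c' (π y))) :=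
      hη'.prodMk (hc'.comp_continuous hr.cont')
    exact isOpen_compl_iff.1 (h1 {x | x.1 = x.2}ᶜ)
  · intro γ hγ y hy
    have hγ : β γ = c (p γ) := hγ
    have hy : η y = c' (π y) := hy
    change η (γ • y) = c' (π (γ • y))
    rw [hηs, hr.map_smul, hcc, hγ, hy]
  · intro g
    obtain ⟨γ, rfl⟩ := hr.surj g
    have h1 : (QuotientGroup.mk (β γ) : B ⧸ K) = QuotientGroup.mk (c (p γ)) := by
      rw [hcf, hfp]
    obtain ⟨n, hn, hn'⟩ := QuotientGroup.eq.1 h1
    have hn : p n = 1 := hn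
    refine ⟨γ * n, ?_, by rw [map_mul, hn, mul_one]⟩
    change β (γ * n) = c (p (γ * n))
    rw [map_mul, map_mul, hn, mul_one, hn', mul_inv_cancel_left]
  · intro t
    obtain ⟨y, rfl⟩ := hr.surj' t
    have h1 : (Quotient.mk'' (c' (π y)) : orbitRel.Quotient K Y0) = Quotient.mk'' (η y) := by
      rw [hcf', hfp']
    have h2 := Quotient.exact' h1
    rw [orbitRel_apply] at h2
    obtain ⟨⟨_, n, hn, rfl⟩, hky⟩ := h2
    have hn : p n = 1 := hn
    have hky : β n • η y = c' (π y) := hky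
    refine ⟨n • y, ?_, by rw [hr.map_smul, hn, one_smul]⟩
    change η (n • y) = c' (π (n • y))
    rw [hηs, hr.map_smul, hn, one_smul, hky]
  · intro y hy y' hy' hyy
    have hy : η y = c' (π y) := hy
    have hy' : η y' = c' (π y') := hy'
    obtain ⟨n, hn, rfl⟩ := hr.trans y y' hyy
    refine ⟨n, ?_, hn, rfl⟩
    change β n = c (p n)
    rw [hn, map_one]
    apply hone n hn
    apply hmemV n hn y
    rw [← hηs, hy', ← hyy, hy]
  · refine ⟨n₀, ?_⟩
    intro hh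
    have hh : β n₀ = c (p n₀) := hh
    rw [hn₀, map_one] at hh
    obtain ⟨y⟩ := ‹Nonempty Y›
    exact hn₀V (hmemV n₀ hn₀ y (by rw [hh, one_smul]))

end Pool.Agent.K7.H29.PP
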